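import Pool.Agent.V1193.Paths

/-!
# Jordan paths belong to the maximal collection generated by the subpaths of a path

For every rectifiable (in particular every admissible) path `Γ`, every Jordan path in `Γ^*` is
admissible and belongs to the maximal collection generated by the subpaths of `Γ`.
-/

set_option autoImplicit false

namespace Pool.Agent.Results.MP_78c6b8_an.JordanPaths

open Pool.Agent.V1193.Paths

/-- Affirmative answer to Q1, for all rectifiable paths `Γ`. -/
theorem result (Γ γ : CPath) (hΓ : Γ.Rectifiable) (hJ : γ.Jordan) (him : γ.image ⊆ Γ.image) :
    γ ∈ maxColl Γ.image (subpaths Γ) :=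
  jordan_mem hΓ hJ him

end Pool.Agent.Results.MP_78c6b8_an.JordanPaths
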